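import Pool.Agent.X12.Sp
import Pool.Agent.X12.Sq

/-!
# The quadratic-residue root product at primitive tenth roots of unity

Let `S(x)` and `S*(x)` be the products of `x - e(a/p)` over the quadratic residues and nonresidues `a`
modulo `p`.  For `p ≡ 21, 29 (mod 40)` the number `2` is a nonresidue and `5` is a residue, so that
`S(x) S(-x) = S*(x²)`, and the product of `S(η^j)`, `1 ≤ j ≤ 4`, is `1` for a primitive fifth root of
unity `η`.  With `S(x) = x ^ ((p-1)/4) ρ(x)` and `ρ(x) = ρ(1/x)`, this gives `S(ζ) = δ` or `-ζ² δ`, where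
`δ = ρ(η) ρ(η²) = ± 1` is the same for all primitive tenth roots of unity `ζ = -η`; its sign is found
from the real product `ρ(e(1/10))`.
-/

set_option autoImplicit false

namespace Pool.Agent.Results.MP_10d431_nt.TenthRoots

open Complex Finset Pool.Agent.X12

/-- `S_p(x)`, the product of `x - exp (2 π i k² / p)` over `1 ≤ k ≤ (p - 1) / 2`. -/
noncomputable def S (p : ℕ) (x : ℂ) : ℂ :=
  ∏ k ∈ Finset.Icc 1 ((p - 1) / 2), (x - exp (2 * Real.pi * I * (k : ℂ) ^ 2 / p))

/-- `n_p(N)`, the number of `1 ≤ k ≤ N` with `(k/p) = -1`. -/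
noncomputable def nonres (p : ℕ) [Fact p.Prime] (N : ℕ) : ℕ :=
  ((Finset.Icc 1 N).filter (fun k : ℕ => legendreSym p (k : ℤ) = -1)).card

section

variable {p : ℕ} [Fact p.Prime]

/-- the symmetric part of the product -/
noncomputable def rho (p : ℕ) [Fact p.Prime] (n : ℕ) (x : ℂ) : ℂ :=
  ∏ i ∈ range n, if qc p ((i : ZMod p) + 1) = 1 then
    x + x⁻¹ - (ps p ((i : ZMod p) + 1) + ps p (-((i : ZMod p) + 1))) else 1

lemma rho_inv (n : ℕ) (x : ℂ) : rho p n x⁻¹ = rho p n x := by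
  unfold rho
  rw [inv_inv, add_comm x⁻¹ x]

lemma card_half {n m : ℕ} (hn : p = 2 * n + 1) (hm : n = 2 * m) (hp : p % 4 = 1) :
    ((range n).filter (fun i : ℕ => qc p ((i : ZMod p) + 1) = 1)).card = m := by
  have h1 := sum_half_qc hn hp
  have h2 : ∀ i ∈ range n, qc p ((i : ZMod p) + 1) =
      2 * (if qc p ((i : ZMod p) + 1) = 1 then (1 : ℤ) else 0) - 1 := by
    intro i hi
    rcases qc_cases (half_ne_zero hn (Finset.mem_range.1 hi)) with h | h
    · rw [h, if_pos rfl]; norm_num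
    · rw [h, if_neg (by norm_num)]; norm_num
  rw [Finset.sum_congr rfl h2, Finset.sum_sub_distrib, ← Finset.mul_sum, Finset.sum_boole,
    Finset.sum_const, Finset.card_range, nsmul_eq_mul, mul_one] at h1
  have h3 : (2 : ℤ) * (((range n).filter (fun i : ℕ => qc p ((i : ZMod p) + 1) = 1)).card : ℤ) =
      (n : ℤ) := by linarith
  have h4 : 2 * ((range n).filter (fun i : ℕ => qc p ((i : ZMod p) + 1) = 1)).card = n := by
    exact_mod_cast h3
  omega

lemma SQ_eq_rho {n m : ℕ} (hn : p = 2 * n + 1) (hm : n = 2 * m) (hp : p % 4 = 1) {x : ℂ}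
    (hx : x ≠ 0) : SQ p x = x ^ m * rho p n x := by
  unfold SQ
  rw [prod_half hn, qc_zero, if_neg (by norm_num), one_mul]
  have h1 : ∀ i ∈ range n, ((if qc p ((i : ZMod p) + 1) = 1 then x - ps p ((i : ZMod p) + 1) else 1) *
      (if qc p (-((i : ZMod p) + 1)) = 1 then x - ps p (-((i : ZMod p) + 1)) else 1)) =
      (if qc p ((i : ZMod p) + 1) = 1 then x else 1) * (if qc p ((i : ZMod p) + 1) = 1 then
        x + x⁻¹ - (ps p ((i : ZMod p) + 1) + ps p (-((i : ZMod p) + 1))) else 1) := by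
    intro i _
    rw [qc_even hp]
    split_ifs with h
    · have h2 := ps_mul_neg (p := p) ((i : ZMod p) + 1)
      have h3 : x * x⁻¹ = 1 := mul_inv_cancel₀ hx
      linear_combination h2 - h3
    · rfl
  rw [Finset.prod_congr rfl h1, Finset.prod_mul_distrib]
  congr 1
  rw [Finset.prod_ite, Finset.prod_const, Finset.prod_const_one, mul_one, card_half hn hm hp]

lemma SQ_mul_SQ_neg {n m : ℕ} (hn : p = 2 * n + 1) (hm : n = 2 * m) (h2 : qc p 2 = -1) (x : ℂ) :
    SQ p x * SQ p (-x) = SN p (x ^ 2) := by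
  have h20 : (2 : ZMod p) ≠ 0 := by
    intro h
    rw [h, qc_zero] at h2
    norm_num at h2
  have e1 : SQ p x * SQ p (-x) = (∏ a : ZMod p, if qc p a = 1 then (-1 : ℂ) else 1) *
      ∏ a : ZMod p, if qc p a = 1 then (x ^ 2 - ps p (2 * a)) else 1 := by
    unfold SQ
    rw [← Finset.prod_mul_distrib, ← Finset.prod_mul_distrib]
    refine Finset.prod_congr rfl fun a _ => ?_
    split_ifs with h
    · rw [ps_two]; ring
    · rfl
  have e2 : (∏ a : ZMod p, if qc p a = 1 then (-1 : ℂ) else 1) = 1 := by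
    rw [← prod_squares hn (fun _ => (-1 : ℂ)), Finset.prod_const, Nat.card_Icc, hm,
      show 2 * m + 1 - 1 = 2 * m by omega, pow_mul]
    norm_num
  rw [e1, e2, one_mul, prod_mul_unit h20 1 (fun a => x ^ 2 - ps p a), h2, mul_one]
  rfl

lemma prod_fifth (h5 : qc p 5 = 1) {η : ℂ} (hη : IsPrimitiveRoot η 5) :
    SQ p (η ^ 1) * SQ p (η ^ 2) * SQ p (η ^ 3) * SQ p (η ^ 4) = 1 := by
  have h50 : (5 : ZMod p) ≠ 0 := by
    intro h
    rw [h, qc_zero] at h5
    norm_num at h5
  have h1 : ∏ i ∈ range 5, SQ p (η ^ i) = SQ p 1 := by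
    unfold SQ
    rw [Finset.prod_comm]
    have e1 : ∀ a : ZMod p, (∏ i ∈ range 5, if qc p a = 1 then η ^ i - ps p a else 1) =
        if qc p a = 1 then 1 - ps p (5 * a) else 1 := by
      intro a
      split_ifs with h
      · have h3 := prod_range_root (by norm_num) hη (ps p a)
        have h4 : ∏ i ∈ range 5, (η ^ i - ps p a) = ∏ i ∈ range 5, (-1) * (ps p a - η ^ i) :=
          Finset.prod_congr rfl fun i _ => by ring
        rw [h4, Finset.prod_mul_distrib, h3, ps_five, Finset.prod_const, Finset.card_range]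
        ring
      · simp
    rw [Finset.prod_congr rfl fun a _ => e1 a, prod_mul_unit h50 1 (fun a => 1 - ps p a), h5,
      mul_one]
  have h0 : SQ p 1 ≠ 0 := by
    unfold SQ
    rw [Finset.prod_ne_zero_iff]
    intro a _
    split_ifs with h
    · intro h1
      have h2 : ps p a = ps p 0 := by rw [ps_zero]; linear_combination -h1
      have h3 := ps_inj h2
      rw [h3, qc_zero] at h
      norm_num at h
    · exact one_ne_zero
  rw [Finset.prod_range_succ, Finset.prod_range_succ, Finset.prod_range_succ,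
    Finset.prod_range_succ, Finset.prod_range_one, pow_zero] at h1
  apply mul_left_cancel₀ h0
  linear_combination h1

/-- `δ` for a primitive fifth root of unity -/
noncomputable def delta (p : ℕ) [Fact p.Prime] (n : ℕ) (η : ℂ) : ℂ := rho p n η * rho p n (η ^ 2)

lemma rho_pow {n : ℕ} {η : ℂ} (hη : η ^ 5 = 1) : rho p n (η ^ 4) = rho p n η ∧
    rho p n (η ^ 3) = rho p n (η ^ 2) := by
  have h1 : η ^ 4 = η⁻¹ := eq_inv_of_mul_eq_one_left (by rw [← pow_succ]; exact hη)
  have h2 : η ^ 3 = (η ^ 2)⁻¹ := eq_inv_of_mul_eq_one_left (by rw [← pow_add]; exact hη)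
  exact ⟨by rw [h1, rho_inv], by rw [h2, rho_inv]⟩

lemma delta_sq {n m : ℕ} (hn : p = 2 * n + 1) (hm : n = 2 * m) (hp : p % 4 = 1)
    (h5 : qc p 5 = 1) {η : ℂ} (hη : IsPrimitiveRoot η 5) : delta p n η ^ 2 = 1 := by
  have h0 : η ≠ 0 := hη.ne_zero (by norm_num)
  have h1 := prod_fifth h5 hη
  have hr := rho_pow (p := p) (n := n) hη.pow_eq_one
  rw [SQ_eq_rho hn hm hp (pow_ne_zero _ h0), SQ_eq_rho hn hm hp (pow_ne_zero _ h0),
    SQ_eq_rho hn hm hp (pow_ne_zero _ h0), SQ_eq_rho hn hm hp (pow_ne_zero _ h0), hr.1, hr.2,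
    pow_one] at h1
  have h2 : η ^ m * (η ^ 2) ^ m * (η ^ 3) ^ m * (η ^ 4) ^ m = 1 := by
    rw [← mul_pow, ← mul_pow, ← mul_pow, show η * η ^ 2 * η ^ 3 * η ^ 4 = (η ^ 5) ^ 2 by ring,
      hη.pow_eq_one]
    simp
  unfold delta
  calc (rho p n η * rho p n (η ^ 2)) ^ 2 =
      (η ^ m * (η ^ 2) ^ m * (η ^ 3) ^ m * (η ^ 4) ^ m) *
        (rho p n η * rho p n (η ^ 2)) ^ 2 := by rw [h2, one_mul]
    _ = 1 := by rw [← h1]; ring

/-- `δ` does not depend on the root -/
lemma delta_indep {n : ℕ} {η η' : ℂ} (hη : IsPrimitiveRoot η 5) (hη' : IsPrimitiveRoot η' 5) :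
    delta p n η' = delta p n η := by
  obtain ⟨j, hj, rfl⟩ := hη.eq_pow_of_pow_eq_one hη'.pow_eq_one
  have hr := rho_pow (p := p) (n := n) hη.pow_eq_one
  have e5 := hη.pow_eq_one
  unfold delta
  have hcases : j = 0 ∨ j = 1 ∨ j = 2 ∨ j = 3 ∨ j = 4 := by omega
  rcases hcases with rfl | rfl | rfl | rfl | rfl
  · exfalso
    rw [pow_zero] at hη'
    exact absurd (hη'.unique IsPrimitiveRoot.one) (by norm_num)
  · rw [pow_one]
  · rw [← pow_mul, hr.1, mul_comm]
  · rw [← pow_mul, hr.2, show η ^ (3 * 2) = η by rw [show 3 * 2 = 5 + 1 by norm_num, pow_add, e5, one_mul, pow_one], mul_comm]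
  · rw [← pow_mul, hr.1, show η ^ (4 * 2) = η ^ 3 by rw [show 4 * 2 = 5 + 3 by norm_num, pow_add, e5, one_mul], hr.2]

lemma neg_prim {ζ : ℂ} (hζ : IsPrimitiveRoot ζ 10) : IsPrimitiveRoot (-ζ) 5 ∧ ζ ^ 5 = -1 := by
  have h5 : ζ ^ 5 = -1 := by
    have h1 : (ζ ^ 5) ^ 2 = 1 := by rw [← pow_mul]; exact hζ.pow_eq_one
    rcases sq_eq_sq_iff_eq_or_eq_neg.1 (h1.trans (one_pow 2).symm) with h | h
    · exact absurd h (hζ.pow_ne_one_of_pos_of_lt (by norm_num) (by norm_num))
    · exact h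
  refine ⟨?_, h5⟩
  have h6 : -ζ = ζ ^ 6 := by rw [show 6 = 5 + 1 by norm_num, pow_add, h5]; ring
  rw [h6]
  have h7 : IsPrimitiveRoot (ζ ^ 2) 5 := hζ.pow (by norm_num) (by norm_num)
  have h8 : IsPrimitiveRoot ((ζ ^ 2) ^ 3) 5 := h7.pow_of_coprime 3 (by norm_num)
  rwa [← pow_mul] at h8

/-- the value at a primitive tenth root of unity, up to the sign `δ` -/
lemma SQ_tenth_21 {n m : ℕ} (hn : p = 2 * n + 1) (hm : n = 2 * m) (hp40 : p % 40 = 21)
    (h2 : qc p 2 = -1) (h5 : qc p 5 = 1) {ζ : ℂ} (hζ : IsPrimitiveRoot ζ 10) :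
    SQ p ζ = delta p n (-ζ) := by
  have hp : p % 4 = 1 := by omega
  obtain ⟨hη, -⟩ := neg_prim hζ
  set η : ℂ := -ζ with hηd
  have h0 : η ≠ 0 := hη.ne_zero (by norm_num)
  have e1 := SQ_mul_SQ_neg hn hm h2 η
  rw [show -η = ζ by rw [hηd]; ring] at e1
  have e2 := SQ_mul_SN (p := p) (η ^ 2)
  have hη2 : η ^ 2 - 1 ≠ 0 := by
    intro h
    have h' : η ^ 2 = 1 := by linear_combination h
    exact hη.pow_ne_one_of_pos_of_lt (by norm_num) (by norm_num) h'
  have hpow : (η ^ 2) ^ p = η ^ 2 := by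
    rw [← pow_mul, mul_comm]
    have : p = 5 * (p / 5) + 1 := by omega
    rw [this, pow_mul, pow_add, pow_mul, hη.pow_eq_one]
    ring
  rw [hpow] at e2
  have e3 : SQ p (η ^ 2) * SN p (η ^ 2) = 1 := by
    apply mul_right_cancel₀ hη2
    rw [e2, one_mul]
  rw [SQ_eq_rho hn hm hp (pow_ne_zero 2 h0)] at e3
  rw [SQ_eq_rho hn hm hp h0] at e1
  have hm5 : m = 5 * (m / 5) := by omega
  have e4 : η ^ m = 1 := by rw [hm5, pow_mul, hη.pow_eq_one, one_pow]
  have e5 : (η ^ 2) ^ m = 1 := by rw [← pow_mul, mul_comm, pow_mul, e4, one_pow]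
  rw [e4, one_mul] at e1
  rw [e5, one_mul] at e3
  have e6 : delta p n η * SQ p ζ = 1 := by
    unfold delta
    calc rho p n η * rho p n (η ^ 2) * SQ p ζ = rho p n (η ^ 2) * (rho p n η * SQ p ζ) := by ring
      _ = 1 := by rw [e1, e3]
  have e7 := delta_sq hn hm hp h5 hη
  have e8 : delta p n η ≠ 0 := by
    intro h
    rw [h] at e7
    norm_num at e7
  apply mul_left_cancel₀ e8
  rw [e6, ← sq, e7]

lemma SQ_tenth_29 {n m : ℕ} (hn : p = 2 * n + 1) (hm : n = 2 * m) (hp40 : p % 40 = 29)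
    (h2 : qc p 2 = -1) (h5 : qc p 5 = 1) {ζ : ℂ} (hζ : IsPrimitiveRoot ζ 10) :
    SQ p ζ = -(ζ ^ 2 * delta p n (-ζ)) := by
  have hp : p % 4 = 1 := by omega
  obtain ⟨hη, -⟩ := neg_prim hζ
  set η : ℂ := -ζ with hηd
  have h0 : η ≠ 0 := hη.ne_zero (by norm_num)
  have e1 := SQ_mul_SQ_neg hn hm h2 η
  rw [show -η = ζ by rw [hηd]; ring] at e1
  have e2 := SQ_mul_SN (p := p) (η ^ 2)
  have hη2 : η ^ 2 - 1 ≠ 0 := by
    intro h
    have h' : η ^ 2 = 1 := by linear_combination h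
    exact hη.pow_ne_one_of_pos_of_lt (by norm_num) (by norm_num) h'
  have hη5 := hη.pow_eq_one
  have hpow : (η ^ 2) ^ p = η ^ 3 := by
    rw [← pow_mul, mul_comm]
    have : p = 5 * (p / 5) + 4 := by omega
    rw [this, pow_mul, pow_add, pow_mul, hη5, one_pow, one_mul, ← pow_mul,
      show 4 * 2 = 5 + 3 by norm_num, pow_add, hη5, one_mul]
  rw [hpow] at e2
  have e3 : SQ p (η ^ 2) * SN p (η ^ 2) = -η ^ 3 := by
    apply mul_right_cancel₀ hη2
    rw [e2]
    linear_combination hη5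
  rw [SQ_eq_rho hn hm hp (pow_ne_zero 2 h0)] at e3
  rw [SQ_eq_rho hn hm hp h0] at e1
  have hm5 : m = 5 * (m / 5) + 2 := by omega
  have e4 : η ^ m = η ^ 2 := by rw [hm5, pow_add, pow_mul, hη5, one_pow, one_mul]
  have e5 : (η ^ 2) ^ m = η ^ 4 := by rw [← pow_mul, mul_comm, pow_mul, e4, ← pow_mul]
  rw [e4] at e1
  rw [e5] at e3
  have e6 : η * (delta p n η * SQ p ζ) = -η ^ 3 := by
    unfold delta
    calc η * (rho p n η * rho p n (η ^ 2) * SQ p ζ) = η ^ 5 *
        (η * (rho p n η * rho p n (η ^ 2) * SQ p ζ)) := by rw [hη5, one_mul]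
      _ = η ^ 4 * rho p n (η ^ 2) * (η ^ 2 * rho p n η * SQ p ζ) := by ring
      _ = -η ^ 3 := by rw [e1, e3]
  have e7 := delta_sq hn hm hp h5 hη
  have e8 : delta p n η ≠ 0 := by
    intro h
    rw [h] at e7
    norm_num at e7
  have e9 : delta p n η * SQ p ζ = -η ^ 2 := by
    apply mul_left_cancel₀ h0
    rw [e6]; ring
  apply mul_left_cancel₀ e8
  rw [e9, show ζ ^ 2 = η ^ 2 by rw [hηd]; ring]
  linear_combination η ^ 2 * e7

/-- the sign of a real product -/
lemma sign_prod {ι : Type*} (s : Finset ι) (f : ι → ℝ)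
    (h : (∏ i ∈ s, f i) ^ 2 = 1) : ∏ i ∈ s, f i = (-1) ^ (s.filter (fun i => f i < 0)).card := by
  have h1 : ∏ i ∈ s, f i = (∏ i ∈ s, if f i < 0 then (-1 : ℝ) else 1) * ∏ i ∈ s, |f i| := by
    rw [← Finset.prod_mul_distrib]
    refine Finset.prod_congr rfl fun i hi => ?_
    split_ifs with h
    · rw [abs_of_neg h]; ring
    · rw [abs_of_nonneg (not_lt.1 h)]; ring
  have h2 : ∏ i ∈ s, |f i| = 1 := by
    rw [← Finset.abs_prod]
    have h3 : |∏ i ∈ s, f i| ^ 2 = 1 := by rw [sq_abs]; exact h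
    have h4 := abs_nonneg (∏ i ∈ s, f i)
    nlinarith
  rw [h1, h2, mul_one, Finset.prod_ite, Finset.prod_const, Finset.prod_const_one, mul_one]

/-- the symmetric part at `exp (i t)` is a real product -/
lemma rho_real {n : ℕ} (t : ℝ) : rho p n (exp (t * I)) =
    ((∏ i ∈ (range n).filter (fun i : ℕ => qc p ((i : ZMod p) + 1) = 1),
      (2 * Real.cos t - 2 * Real.cos (2 * Real.pi * ((i : ℝ) + 1) / p)) : ℝ) : ℂ) := by
  unfold rho
  rw [Finset.prod_filter]
  push_cast
  refine Finset.prod_congr rfl fun i _ => ?_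
  split_ifs with h
  · have h1 : ps p ((i : ZMod p) + 1) = exp (((2 * Real.pi * ((i : ℝ) + 1) / p : ℝ) : ℂ) * I) := by
      have h2 : ((i : ZMod p) + 1) = ((i + 1 : ℕ) : ZMod p) := by push_cast; rfl
      rw [h2, ps_nat]
      congr 1
      push_cast
      ring
    have h3 : ps p (-((i : ZMod p) + 1)) =
        exp (-(((2 * Real.pi * ((i : ℝ) + 1) / p : ℝ) : ℂ) * I)) := by
      have h4 := ps_mul_neg (p := p) ((i : ZMod p) + 1)
      rw [Complex.exp_neg, ← h1]
      exact eq_inv_of_mul_eq_one_right h4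
    rw [h1, h3, ← Complex.exp_neg]
    have h5 := Complex.two_cos (t : ℂ)
    have h6 := Complex.two_cos (((2 * Real.pi * ((i : ℝ) + 1) / p : ℝ) : ℂ))
    rw [show -(t : ℂ) * I = -((t : ℂ) * I) by ring] at h5
    rw [show -(((2 * Real.pi * ((i : ℝ) + 1) / p : ℝ) : ℂ)) * I =
      -((((2 * Real.pi * ((i : ℝ) + 1) / p : ℝ) : ℂ)) * I) by ring] at h6
    rw [← h5, ← h6]
    push_cast
    ring
  · rfl

/-- the sign of a factor -/
lemma factor_neg {n : ℕ} (hn : p = 2 * n + 1) {i : ℕ} (hi : i < n) :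
    (2 * Real.cos (2 * Real.pi / 10) - 2 * Real.cos (2 * Real.pi * ((i : ℝ) + 1) / p) < 0) ↔
      10 * (i + 1) < p := by
  have hpi := Real.pi_pos
  have hp0 : (0 : ℝ) < p := by exact_mod_cast (Fact.out : p.Prime).pos
  have h1 : (2 * Real.pi / 10) ∈ Set.Icc 0 Real.pi := ⟨by positivity, by linarith⟩
  have h2 : (2 * Real.pi * ((i : ℝ) + 1) / p) ∈ Set.Icc 0 Real.pi := by
    refine ⟨by positivity, ?_⟩
    rw [div_le_iff₀ hp0]
    have h3 : 2 * ((i : ℝ) + 1) ≤ p := by
      have : 2 * (i + 1) ≤ p := by omega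
      exact_mod_cast this
    nlinarith
  have h4 := Real.strictAntiOn_cos.lt_iff_gt h1 h2
  constructor
  · intro h
    have h5 : Real.cos (2 * Real.pi / 10) < Real.cos (2 * Real.pi * ((i : ℝ) + 1) / p) := by
      linarith
    have h6 := h4.1 h5
    rw [div_lt_div_iff₀ hp0 (by norm_num)] at h6
    have h7 : 10 * ((i : ℝ) + 1) < p := by
      by_contra hc
      push Not at hc
      nlinarith
    exact_mod_cast h7
  · intro h
    have h7 : 10 * ((i : ℝ) + 1) < p := by exact_mod_cast h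
    have h6 : 2 * Real.pi * ((i : ℝ) + 1) / p < 2 * Real.pi / 10 := by
      rw [div_lt_div_iff₀ hp0 (by norm_num)]
      nlinarith
    have h5 := h4.2 h6
    linarith

/-- the number of residues up to `p / 10` -/
lemma sign_rho {n : ℕ} (hn : p = 2 * n + 1) (hsq : rho p n (exp ((2 * Real.pi / 10 : ℝ) * I)) ^ 2 = 1)
    (K : ℕ) (hK : p / 10 = K) :
    rho p n (exp ((2 * Real.pi / 10 : ℝ) * I)) =
      (-1) ^ ((Finset.Icc 1 K).filter (fun k : ℕ => legendreSym p (k : ℤ) = 1)).card := by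
  rw [rho_real] at hsq ⊢
  have hsq' : (∏ i ∈ (range n).filter (fun i : ℕ => qc p ((i : ZMod p) + 1) = 1),
      (2 * Real.cos (2 * Real.pi / 10) - 2 * Real.cos (2 * Real.pi * ((i : ℝ) + 1) / p))) ^ 2 =
        (1 : ℝ) := by
    exact_mod_cast hsq
  rw [sign_prod _ _ hsq']
  · push_cast
    congr 1
    rw [Finset.filter_filter]
    refine Finset.card_bij (fun i _ => i + 1) ?_ ?_ ?_
    · intro i hi
      rw [Finset.mem_filter, Finset.mem_range] at hi
      have h1 := (factor_neg hn hi.1).1 hi.2.2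
      rw [Finset.mem_filter, Finset.mem_Icc]
      refine ⟨⟨by omega, by omega⟩, ?_⟩
      rw [legendre_eq]
      push_cast
      exact hi.2.1
    · intro a _ b _ h
      omega
    · intro k hk
      rw [Finset.mem_filter, Finset.mem_Icc] at hk
      refine ⟨k - 1, ?_, by omega⟩
      have h10 : 10 * k < p := by
        have h11 : 10 * k ≤ p := by omega
        rcases h11.lt_or_eq with h | h
        · exact h
        · exfalso
          have h12 : 2 ∣ p := ⟨5 * k, by omega⟩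
          omega
      have hkn : k - 1 < n := by omega
      have hk1 : ((k - 1 : ℕ) : ZMod p) + 1 = (k : ZMod p) := by
        have : (((k - 1) + 1 : ℕ) : ZMod p) = (k : ZMod p) := by
          congr 1; omega
        rw [← this]; push_cast; rfl
      rw [Finset.mem_filter, Finset.mem_range]
      refine ⟨hkn, ?_, ?_⟩
      · rw [hk1]
        have := hk.2
        rw [legendre_eq] at this
        push_cast at this
        exact this
      · rw [factor_neg hn hkn]
        omega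

/-- the residues and the nonresidues up to `K < p` -/
lemma card_add {K : ℕ} (hK : K < p) :
    ((Finset.Icc 1 K).filter (fun k : ℕ => legendreSym p (k : ℤ) = 1)).card + nonres p K = K := by
  unfold nonres
  rw [← Finset.card_union_of_disjoint]
  · rw [← Finset.filter_or, Finset.filter_true_of_mem]
    · rw [Nat.card_Icc]; omega
    · intro k hk
      have hk' := Finset.mem_Icc.1 hk
      have h0 : ((k : ℤ) : ZMod p) ≠ 0 := by
        intro h
        push_cast at h
        rw [ZMod.natCast_eq_zero_iff] at h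
        have := Nat.le_of_dvd (by omega) h
        omega
      exact qc_cases h0
  · rw [Finset.disjoint_left]
    intro k h1 h2
    rw [Finset.mem_filter] at h1 h2
    rw [h1.2] at h2
    exact absurd h2.2 (by norm_num)

lemma nonres_succ {K : ℕ} (h : legendreSym p ((K + 1 : ℕ) : ℤ) = -1) :
    nonres p (K + 1) = nonres p K + 1 := by
  unfold nonres
  rw [← Finset.insert_Icc_right_eq_Icc_add_one (by omega), Finset.filter_insert, if_pos h,
    Finset.card_insert_of_notMem]
  simp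

/-- `2` is a nonresidue and `5` is a residue -/
lemma qc_two_five (hp40 : p % 40 = 21 ∨ p % 40 = 29) : qc p 2 = -1 ∧ qc p 5 = 1 := by
  have hp2 : p ≠ 2 := by omega
  have : Fact (Nat.Prime 5) := ⟨by norm_num⟩
  constructor
  · have h1 := legendreSym.at_two hp2
    rw [legendre_eq] at h1
    push_cast at h1
    rw [h1, ZMod.χ₈_nat_eq_if_mod_eight, if_neg (by omega), if_neg (by omega)]
  · have h1 := legendreSym.quadratic_reciprocity_one_mod_four (p := 5) (q := p) (by norm_num) hp2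
    have h2 : legendreSym 5 (p : ℤ) = 1 := by
      have h3 : legendreSym 5 (p : ℤ) = legendreSym 5 ((p : ℤ) % 5) := legendreSym.mod 5 _
      rcases hp40 with h | h
      · have h4 : ((p : ℤ) % 5) = 1 := by omega
        rw [h3, h4]; norm_num
      · have h4 : ((p : ℤ) % 5) = 4 := by omega
        rw [h3, h4]; norm_num
    have h3 : legendreSym p ((5 : ℕ) : ℤ) = qc p 5 := by rw [legendre_eq]; push_cast; rfl
    rw [← h3, ← h1] at *
    exact h2

end

/-- **Q1.** The value of `S_p` at every primitive tenth root of unity, for `p ≡ 21, 29 (mod 40)`. -/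
theorem result (p : ℕ) [Fact p.Prime] (ζ : ℂ) (hζ : IsPrimitiveRoot ζ 10) :
    (p % 40 = 21 → S p ζ = (-1) ^ nonres p ((p + 9) / 10)) ∧
    (p % 40 = 29 → S p ζ = (-1) ^ nonres p ((p + 1) / 10) * ζ ^ 2) := by
  have hζ0 : IsPrimitiveRoot (exp ((2 * Real.pi / 10 : ℝ) * I)) 10 := by
    have h1 := Complex.isPrimitiveRoot_exp 10 (by norm_num)
    have h2 : (exp ((2 * Real.pi / 10 : ℝ) * I)) = exp (2 * Real.pi * I / (10 : ℕ)) := by
      congr 1
      push_cast
      ring
    rw [h2]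
    exact h1
  obtain ⟨hη, -⟩ := neg_prim hζ
  obtain ⟨hη0, h05⟩ := neg_prim hζ0
  constructor
  · intro hp40
    obtain ⟨h2, h5⟩ := qc_two_five (p := p) (Or.inl hp40)
    obtain ⟨k, hk⟩ : ∃ k, p = 40 * k + 21 := ⟨p / 40, by omega⟩
    have hn : p = 2 * (20 * k + 10) + 1 := by omega
    have hm : 20 * k + 10 = 2 * (10 * k + 5) := by omega
    have hp : p % 4 = 1 := by omega
    have e1 := SQ_tenth_21 hn hm hp40 h2 h5 hζ
    have e0 := SQ_tenth_21 hn hm hp40 h2 h5 hζ0
    have d0 := delta_sq hn hm hp h5 hη0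
    rw [delta_indep hη0 hη] at e1
    rw [SQ_eq_rho hn hm hp (hζ0.ne_zero (by norm_num)),
      show 10 * k + 5 = 5 * (2 * k + 1) by ring, pow_mul, h05, pow_succ, pow_mul] at e0
    have e2 : rho p (20 * k + 10) (exp ((2 * Real.pi / 10 : ℝ) * I)) =
        -delta p (20 * k + 10) (-exp ((2 * Real.pi / 10 : ℝ) * I)) := by
      rw [← e0]; norm_num
    have e3 := sign_rho hn (by rw [e2, neg_sq, d0]) (4 * k + 2) (by omega)
    have e4 := card_add (p := p) (K := 4 * k + 2) (by omega)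
    have e5 : legendreSym p ((4 * k + 2 + 1 : ℕ) : ℤ) = -1 := by
      rw [legendre_eq]
      have h30 : qc p ((3 : ZMod p)) * qc p 3 = 1 := by
        apply qc_sq
        intro h
        have h' : ((3 : ℕ) : ZMod p) = 0 := by exact_mod_cast h
        rw [ZMod.natCast_eq_zero_iff] at h'
        have := Nat.le_of_dvd (by norm_num) h'
        omega
      have hmul : (10 : ZMod p) * (((4 * k + 2 + 1 : ℕ) : ℤ) : ZMod p) = 3 * 3 := by
        have hp0 : ((40 * k + 21 : ℕ) : ZMod p) = 0 := by rw [← hk]; exact ZMod.natCast_self p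
        push_cast at hp0 ⊢
        linear_combination hp0
      have h6 := congrArg (qc p) hmul
      rw [qc_mul, qc_mul 3 3, h30, show (10 : ZMod p) = 2 * 5 by norm_num, qc_mul, h2, h5] at h6
      linarith
    rw [S, show (p - 1) / 2 = 20 * k + 10 by omega, S_eq_SQ hn, e1,
      show (p + 9) / 10 = 4 * k + 2 + 1 by omega, nonres_succ e5, pow_succ (-1 : ℂ)]
    have e6 : ((-1 : ℂ)) ^ ((Finset.Icc 1 (4 * k + 2)).filter
        (fun j : ℕ => legendreSym p (j : ℤ) = 1)).card = (-1) ^ nonres p (4 * k + 2) := by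
      have h7 : ((-1 : ℂ)) ^ ((Finset.Icc 1 (4 * k + 2)).filter
        (fun j : ℕ => legendreSym p (j : ℤ) = 1)).card * (-1) ^ nonres p (4 * k + 2) = 1 := by
        rw [← pow_add, e4, show 4 * k + 2 = 2 * (2 * k + 1) by ring, pow_mul]
        norm_num
      have h8 : ((-1 : ℂ)) ^ nonres p (4 * k + 2) * (-1) ^ nonres p (4 * k + 2) = 1 := by
        rw [← pow_add, ← two_mul, pow_mul]; norm_num
      linear_combination (-1 : ℂ) ^ nonres p (4 * k + 2) * h7 -
        ((-1 : ℂ)) ^ ((Finset.Icc 1 (4 * k + 2)).filter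
        (fun j : ℕ => legendreSym p (j : ℤ) = 1)).card * h8
    rw [← e6, ← e3, e2]
    ring
  · intro hp40
    obtain ⟨h2, h5⟩ := qc_two_five (p := p) (Or.inr hp40)
    obtain ⟨k, hk⟩ : ∃ k, p = 40 * k + 29 := ⟨p / 40, by omega⟩
    have hn : p = 2 * (20 * k + 14) + 1 := by omega
    have hm : 20 * k + 14 = 2 * (10 * k + 7) := by omega
    have hp : p % 4 = 1 := by omega
    have e1 := SQ_tenth_29 hn hm hp40 h2 h5 hζ
    have e0 := SQ_tenth_29 hn hm hp40 h2 h5 hζ0
    have d0 := delta_sq hn hm hp h5 hη0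
    rw [delta_indep hη0 hη] at e1
    rw [SQ_eq_rho hn hm hp (hζ0.ne_zero (by norm_num)),
      show 10 * k + 7 = 5 * (2 * k + 1) + 2 by ring, pow_add, pow_mul, h05, pow_succ, pow_mul] at e0
    have hz0 : (exp ((2 * Real.pi / 10 : ℝ) * I)) ^ 2 ≠ 0 :=
      pow_ne_zero _ (hζ0.ne_zero (by norm_num))
    have e2 : rho p (20 * k + 14) (exp ((2 * Real.pi / 10 : ℝ) * I)) =
        delta p (20 * k + 14) (-exp ((2 * Real.pi / 10 : ℝ) * I)) := by
      apply mul_left_cancel₀ hz0
      have : ((-1 : ℂ) ^ 2) ^ k = 1 := by norm_num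
      rw [this] at e0
      linear_combination -e0
    have e3 := sign_rho hn (by rw [e2, d0]) (4 * k + 2) (by omega)
    have e4 := card_add (p := p) (K := 4 * k + 2) (by omega)
    have e5 : legendreSym p ((4 * k + 2 + 1 : ℕ) : ℤ) = -1 := by
      rw [legendre_eq]
      have hmul : (10 : ZMod p) * (((4 * k + 2 + 1 : ℕ) : ℤ) : ZMod p) = 1 := by
        have hp0 : ((40 * k + 29 : ℕ) : ZMod p) = 0 := by rw [← hk]; exact ZMod.natCast_self p
        push_cast at hp0 ⊢
        linear_combination hp0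
      have h6 := congrArg (qc p) hmul
      rw [qc_mul, qc_one, show (10 : ZMod p) = 2 * 5 by norm_num, qc_mul, h2, h5] at h6
      linarith
    rw [S, show (p - 1) / 2 = 20 * k + 14 by omega, S_eq_SQ hn, e1,
      show (p + 1) / 10 = 4 * k + 2 + 1 by omega, nonres_succ e5, pow_succ (-1 : ℂ)]
    have e6 : ((-1 : ℂ)) ^ ((Finset.Icc 1 (4 * k + 2)).filter
        (fun j : ℕ => legendreSym p (j : ℤ) = 1)).card = (-1) ^ nonres p (4 * k + 2) := by
      have h7 : ((-1 : ℂ)) ^ ((Finset.Icc 1 (4 * k + 2)).filter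
        (fun j : ℕ => legendreSym p (j : ℤ) = 1)).card * (-1) ^ nonres p (4 * k + 2) = 1 := by
        rw [← pow_add, e4, show 4 * k + 2 = 2 * (2 * k + 1) by ring, pow_mul]
        norm_num
      have h8 : ((-1 : ℂ)) ^ nonres p (4 * k + 2) * (-1) ^ nonres p (4 * k + 2) = 1 := by
        rw [← pow_add, ← two_mul, pow_mul]; norm_num
      linear_combination (-1 : ℂ) ^ nonres p (4 * k + 2) * h7 -
        ((-1 : ℂ)) ^ ((Finset.Icc 1 (4 * k + 2)).filter
        (fun j : ℕ => legendreSym p (j : ℤ) = 1)).card * h8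
    rw [← e6, ← e3, e2]
    ring

end Pool.Agent.Results.MP_10d431_nt.TenthRoots
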